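import Pool.Agent.MP_bd94e8_al.H89.Spec

/-!
Gradings of thin problems and thinness of covers.
-/

set_option autoImplicit false
set_option linter.unusedVariables false
set_option linter.unusedSectionVars false

namespace Pool.Agent.MP_bd94e8_al.H89

open Module Function

namespace GrA

section thin
variable {F Pt ι : Type} [Field F] [Fintype Pt] [DecidableEq Pt] {vt : Pt → ι}
  {R : Set (Matrix Pt Pt F)}

theorem mask_add {T : Type} (s : T → Pt → Prop) (a b : Matrix T Pt F) :
    mask s (a + b) = mask s a + mask s b := by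
  ext q p
  by_cases h : s q p
  · rw [Matrix.add_apply, mask_pos _ h, mask_pos _ h, mask_pos _ h, Matrix.add_apply]
  · rw [Matrix.add_apply, mask_neg _ h, mask_neg _ h, mask_neg _ h, add_zero]

theorem mask_zero {T : Type} (s : T → Pt → Prop) : mask s (0 : Matrix T Pt F) = 0 := by
  ext q p
  by_cases h : s q p
  · rw [mask_pos _ h]
  · rw [mask_neg _ h, Matrix.zero_apply]

theorem mask_all {T : Type} {s : T → Pt → Prop} {h : Matrix T Pt F}
    (hs : ∀ q p, h q p ≠ 0 → s q p) : mask s h = h := by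
  ext q p
  by_cases e : s q p
  · rw [mask_pos _ e]
  · rw [mask_neg _ e]
    by_contra hc
    exact e (hs q p (Ne.symm hc))

theorem mask_none {T : Type} {s : T → Pt → Prop} {h : Matrix T Pt F}
    (hs : ∀ q p, h q p ≠ 0 → ¬ s q p) : mask s h = 0 := by
  ext q p
  by_contra hc
  exact hs q p (mask_ne hc).2 (mask_ne hc).1

theorem Sup2.symm {h : Matrix Pt Pt F} {a b : Pt × Pt} (H : Sup2 h a b) : Sup2 h b a :=
  fun q p e => (H q p e).symm

theorem sub_mem (H : Thin vt R) {a b : Matrix Pt Pt F} (ha : a ∈ R) (hb : b ∈ R) : a - b ∈ R := by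
  have := H.add a ha _ (H.smul (-1) b hb)
  rwa [neg_one_smul, ← sub_eq_add_neg] at this

theorem eq_single {h : Matrix Pt Pt F} {a : Pt × Pt} (hs : ∀ q p, h q p ≠ 0 → (p, q) = a) :
    h = h a.2 a.1 • Matrix.single a.2 a.1 (1 : F) := by
  ext q p
  by_cases e : (p, q) = a
  · subst e
    simp
  · have h1 : h q p = 0 := by
      by_contra hc
      exact e (hs q p hc)
    rw [h1, Matrix.smul_apply, Matrix.single_apply_of_ne, smul_zero]
    rintro ⟨rfl, rfl⟩
    exact e rfl

theorem single_mem (H : Thin vt R) {h : Matrix Pt Pt F} (hR : h ∈ R) {a : Pt × Pt}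
    (hs : ∀ q p, h q p ≠ 0 → (p, q) = a) (ha : h a.2 a.1 ≠ 0) :
    Matrix.single a.2 a.1 (1 : F) ∈ R :=
  H.mm h hR a a rfl rfl (Or.inl rfl) (fun q p e => Or.inl (hs q p e)) ha

theorem mask_mem (H : Thin vt R) (s : Pt → Pt → Prop)
    (hs : ∀ a b, Tie vt R a b → (s a.2 a.1 ↔ s b.2 b.1)) {r : Matrix Pt Pt F} (hr : r ∈ R) :
    mask s r ∈ R := by
  have one : ∀ h ∈ R, ∀ a : Pt × Pt, (∀ q p, h q p ≠ 0 → (p, q) = a) → mask s h ∈ R := by
    intro h hR a ha
    by_cases e : s a.2 a.1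
    · rw [mask_all]
      · exact hR
      · intro q p e'
        have := ha q p e'
        subst this
        exact e
    · rw [mask_none]
      · exact H.zero
      · intro q p e'
        have := ha q p e'
        subst this
        exact e
  refine AddSubmonoid.closure_induction (motive := fun x _ => mask s x ∈ R) ?_ ?_ ?_ (H.span r hr)
  · rintro h ⟨hR, a, b, h1, h2, -, hS⟩
    by_cases ha : h a.2 a.1 = 0
    · refine one h hR b fun q p e => (hS q p e).resolve_left ?_
      rintro rfl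
      exact e ha
    by_cases hb : h b.2 b.1 = 0
    · refine one h hR a fun q p e => (hS q p e).resolve_right ?_
      rintro rfl
      exact e hb
    by_cases hab : a = b
    · exact one h hR a fun q p e => (hS q p e).elim id fun e' => e'.trans hab.symm
    by_cases hsg : Matrix.single a.2 a.1 (1 : F) ∈ R
    · have e1 : h = h a.2 a.1 • Matrix.single a.2 a.1 (1 : F) +
          (h - h a.2 a.1 • Matrix.single a.2 a.1 (1 : F)) := by abel
      rw [e1, mask_add]
      refine H.add _ (one _ (H.smul _ _ hsg) a fun q p e => ?_) _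
        (one _ (sub_mem H hR (H.smul _ _ hsg)) b fun q p e => ?_)
      · by_contra hc
        refine e ?_
        rw [Matrix.smul_apply, Matrix.single_apply_of_ne, smul_zero]
        rintro ⟨rfl, rfl⟩
        exact hc rfl
      · by_cases e' : (p, q) = a
        · subst e'
          simp at e
        · refine (hS q p fun hc => e ?_).resolve_left e'
          rw [Matrix.sub_apply, hc, Matrix.smul_apply, Matrix.single_apply_of_ne, smul_zero,
            sub_zero]
          rintro ⟨rfl, rfl⟩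
          exact e' rfl
    · have ht := hs a b ⟨hab, h1, h2, hsg, h, hR, ha, hb, hS⟩
      by_cases e : s a.2 a.1
      · rw [mask_all]
        · exact hR
        · intro q p e'
          rcases hS q p e' with rfl | rfl
          · exact e
          · exact ht.1 e
      · rw [mask_none]
        · exact H.zero
        · intro q p e'
          rcases hS q p e' with rfl | rfl
          · exact e
          · exact fun hc => e (ht.2 hc)
  · rw [mask_zero]
    exact H.zero
  · intro x y _ _ hx hy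
    rw [mask_add]
    exact H.add _ hx _ hy

end thin

section prob
variable {k F : Type} [Field k] [Field F] [Algebra k F] {Pt ι Ω : Type} [Fintype Pt]
  [DecidableEq Pt] {P : Prob k F Pt ι Ω} {L : ℕ}

theorem diag_mem (H : ThinBase P L) {b : Matrix Pt Pt F} (hb : b ∈ P.B) :
    Matrix.diagonal (fun p => b p p) ∈ P.B := by
  classical
  have : Matrix.diagonal (fun p => b p p) =
      ∑ i ∈ Finset.univ.image P.vt, (if h : ∃ p, P.vt p = i then b h.choose h.choose else 0) •
        P.e i := by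
    ext q p
    rw [Matrix.sum_apply, Finset.sum_eq_single (P.vt p)
      (fun i _ hi => by rw [Matrix.smul_apply, P.e_neg q hi.symm, smul_zero]) (by simp),
      Matrix.smul_apply, P.e_pos q rfl, dif_pos ⟨p, rfl⟩]
    have h1 : ∃ p', P.vt p' = P.vt p := ⟨p, rfl⟩
    rw [H.diag b hb _ p h1.choose_spec]
    by_cases e : q = p
    · subst e
      simp
    · rw [Matrix.diagonal_apply_ne _ e, Matrix.one_apply_ne e, smul_zero]
  rw [this]
  exact Subalgebra.sum_mem _ fun i _ => H.scal _ _ (P.e_mem i)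

theorem off_mem (H : ThinBase P L) {b : Matrix Pt Pt F} (hb : b ∈ P.B) :
    b - Matrix.diagonal (fun p => b p p) ∈ P.R0 :=
  ⟨P.B.sub_mem hb (diag_mem H hb), fun p => by simp⟩

theorem off_apply (b : Matrix Pt Pt F) {q p : Pt} (h : q ≠ p) :
    (b - Matrix.diagonal (fun p => b p p)) q p = b q p := by
  rw [Matrix.sub_apply, Matrix.diagonal_apply_ne _ h, sub_zero]

theorem ar_iff (H : ThinBase P L) (p q : Pt) : P.Ar p q ↔ Arr P.R0 p q := by
  constructor
  · rintro ⟨hpq, b, hb, h⟩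
    exact ⟨_, off_mem H hb, by rwa [off_apply b hpq.symm]⟩
  · rintro ⟨r, hr, h⟩
    refine ⟨?_, r, hr.1, h⟩
    rintro rfl
    exact h (hr.2 p)

theorem graded (H : ThinBase P L) {G : Type} [Group G] {deg : Pt → G}
    (hd : ∀ x y, Tie P.vt P.R0 x y → deg x.1 * (deg x.2)⁻¹ = deg y.1 * (deg y.2)⁻¹) :
    Graded P deg := by
  intro b hb s
  have e1 : b = Matrix.diagonal (fun p => b p p) + (b - Matrix.diagonal (fun p => b p p)) := by
    abel
  rw [e1, mask_add]
  refine P.B.add_mem ?_ (mask_mem H.thin _ (fun x y hxy => ?_) (off_mem H hb)).1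
  · by_cases hs : s = 1
    · rw [mask_all]
      · exact diag_mem H hb
      · intro q p e
        by_cases e' : q = p
        · rw [e', hs, one_mul]
        · exact (e (Matrix.diagonal_apply_ne _ e')).elim
    · rw [mask_none]
      · exact P.B.zero_mem
      · intro q p e
        by_cases e' : q = p
        · rw [e']
          exact fun hc => hs (by simpa using hc)
        · exact (e (Matrix.diagonal_apply_ne _ e')).elim
  · rw [← mul_inv_eq_iff_eq_mul, ← mul_inv_eq_iff_eq_mul, hd x y hxy]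

variable {T I O : Type} [Fintype T] [DecidableEq T] {J : Prob k F T I O} {π : T → Pt}

/-- The lift of a matrix to a block of the cover. -/
noncomputable def lam (J : Prob k F T I O) (π : T → Pt) (i j : I) (h : Matrix Pt Pt F) :
    Matrix T T F :=
  mask (fun t' t => J.vt t = i ∧ J.vt t' = j ∧ J.pk t' = J.pk t) (h.submatrix π π)

theorem lam_pos {i j : I} (h : Matrix Pt Pt F) {t t' : T} (h1 : J.vt t = i) (h2 : J.vt t' = j)
    (h3 : J.pk t' = J.pk t) : lam J π i j h t' t = h (π t') (π t) :=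
  mask_pos (s := fun t' t => J.vt t = i ∧ J.vt t' = j ∧ J.pk t' = J.pk t) _ ⟨h1, h2, h3⟩

theorem lam_ne {i j : I} {h : Matrix Pt Pt F} {t t' : T} (e : lam J π i j h t' t ≠ 0) :
    (J.vt t = i ∧ J.vt t' = j ∧ J.pk t' = J.pk t) ∧ h (π t') (π t) ≠ 0 :=
  mask_ne (s := fun t' t => J.vt t = i ∧ J.vt t' = j ∧ J.pk t' = J.pk t) e

theorem lam_add (i j : I) (a b : Matrix Pt Pt F) :
    lam J π i j (a + b) = lam J π i j a + lam J π i j b := by
  unfold lam
  rw [← mask_add]
  rfl

theorem lam_zero (i j : I) : lam J π i j (0 : Matrix Pt Pt F) = 0 := mask_zero _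

theorem lam_mem (C : Cover J P π) (i j : I) {h : Matrix Pt Pt F} (hh : h ∈ P.B) :
    lam J π i j h ∈ J.B := by
  rw [C.mem]
  refine ⟨fun t' t e => (lam_ne e).1.2.2, fun i' j' => ?_⟩
  by_cases e : i' = i ∧ j' = j
  · obtain ⟨rfl, rfl⟩ := e
    obtain ⟨h', hh', H'⟩ := C.homog h hh i' j'
    refine ⟨h', hh', fun t t' h1 h2 => ?_⟩
    by_cases h3 : J.pk t' = J.pk t
    · rw [lam_pos h h1 h2 h3, (H' t t' h1 h2).1 h3]
    · rw [(H' t t' h1 h2).2 h3]
      by_contra hc
      exact h3 (lam_ne hc).1.2.2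
  · refine ⟨0, P.B.zero_mem, fun t t' h1 h2 => ?_⟩
    by_contra hc
    exact e ⟨h1.symm.trans (lam_ne hc).1.1, h2.symm.trans (lam_ne hc).1.2.1⟩

theorem lam_mem0 (C : Cover J P π) {i j : I} (hij : i ≠ j) {h : Matrix Pt Pt F} (hh : h ∈ P.B) :
    lam J π i j h ∈ J.R0 :=
  ⟨lam_mem C i j hh, fun t => by
    by_contra hc
    exact hij ((lam_ne hc).1.1.symm.trans (lam_ne hc).1.2.1)⟩

theorem cov_ar (C : Cover J P π) {t t' : T} (hp : J.pk t = J.pk t') :
    J.Ar t t' ↔ P.Ar (π t) (π t') := by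
  constructor
  · rintro ⟨hne, b, hb, e⟩
    obtain ⟨h, hh, H⟩ := ((C.mem b).1 hb).2 (J.vt t) (J.vt t')
    exact ⟨fun hc => hne (C.uniq _ _ hc hp), h, hh, by rwa [← H t t' rfl rfl]⟩
  · rintro ⟨hne, h, hh, e⟩
    exact ⟨fun hc => hne (by rw [hc]), _, lam_mem C (J.vt t) (J.vt t') hh,
      by rwa [lam_pos h rfl rfl hp.symm]⟩

theorem cov_smul (H : ThinBase P L) (C : Cover J P π) (c : F) {b : Matrix T T F} (hb : b ∈ J.B) :
    c • b ∈ J.B := by
  rw [C.mem] at hb ⊢
  refine ⟨fun t' t e => hb.1 t' t fun hc => e (by simp [hc]), fun i j => ?_⟩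
  obtain ⟨h, hh, H'⟩ := hb.2 i j
  exact ⟨c • h, H.scal c h hh, fun t t' h1 h2 => by
    rw [Matrix.smul_apply, Matrix.smul_apply, H' t t' h1 h2]⟩

theorem sum_blk (J : Prob k F T I O) (b : Matrix T T F) :
    open Classical in
    b = ∑ i ∈ Finset.univ.image J.vt, ∑ j ∈ Finset.univ.image J.vt, J.blk i j b := by
  classical
  ext q p
  rw [Matrix.sum_apply, Finset.sum_eq_single (J.vt p) (fun i _ hi => by
      rw [Matrix.sum_apply]
      exact Finset.sum_eq_zero fun j _ => J.blk_neg _ fun h => hi h.1.symm) (by simp),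
    Matrix.sum_apply, Finset.sum_eq_single (J.vt q)
      (fun j _ hj => J.blk_neg _ fun h => hj h.2.symm) (by simp), J.blk_pos _ rfl rfl]

theorem cov_span (H : ThinBase P L) (C : Cover J P π)
    (hd : ∀ t t', J.vt t = J.vt t' → J.pk t = J.pk t' → t = t') {r : Matrix T T F}
    (hr : r ∈ J.R0) : r ∈ AddSubmonoid.closure {h | h ∈ J.R0 ∧ ∃ a b : T × T,
      J.vt a.1 = J.vt b.1 ∧ J.vt a.2 = J.vt b.2 ∧ (a.1 = b.1 ↔ a.2 = b.2) ∧ Sup2 h a b} := by
  classical
  rw [sum_blk J r]
  refine sum_mem fun i _ => sum_mem fun j _ => ?_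
  by_cases hij : i = j
  · have : J.blk i j r = 0 := by
      ext q p
      by_contra hc
      obtain ⟨⟨h1, h2⟩, h3⟩ := mask_ne hc
      have := hd q p (h2.trans (hij.symm.trans h1.symm)) (J.peak r hr.1 q p h3)
      subst this
      exact h3 (hr.2 q)
    rw [this]
    exact zero_mem _
  obtain ⟨h, hh, H'⟩ := ((C.mem r).1 hr.1).2 i j
  have e1 : J.blk i j r = lam J π i j (h - Matrix.diagonal (fun p => h p p)) := by
    ext t' t
    by_cases e : J.vt t = i ∧ J.vt t' = j
    · rw [J.blk_pos _ e.1 e.2]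
      by_cases e' : J.pk t' = J.pk t
      · rw [lam_pos _ e.1 e.2 e', off_apply, H' t t' e.1 e.2]
        intro hc
        have := C.uniq _ _ hc e'
        subst this
        exact hij (e.1.symm.trans e.2)
      · have h1 : r t' t = 0 := by
          by_contra hc
          exact e' (J.peak r hr.1 _ _ hc)
        rw [h1]
        by_contra hc
        exact e' (lam_ne (Ne.symm hc)).1.2.2
    · rw [J.blk_neg _ e]
      by_contra hc
      exact e ⟨(lam_ne (Ne.symm hc)).1.1, (lam_ne (Ne.symm hc)).1.2.1⟩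
  rw [e1]
  refine AddSubmonoid.closure_induction (motive := fun x _ => lam J π i j x ∈ _) ?_ ?_ ?_
    (H.thin.span _ (off_mem H hh))
  · rintro x ⟨hx, a, b, -, -, h3, hS⟩
    have hx' := lam_mem0 C hij hx.1
    have hu : ∀ (α : T × T) (c : Pt × Pt), J.vt α.1 = i → J.vt α.2 = j → (π α.1, π α.2) = c →
        ∀ t t', J.vt t = i → J.vt t' = j → (π t, π t') = c → (t, t') = α := by
      intro α c h1 h2 h3 t t' h4 h5 h6
      rw [← h3, Prod.mk.injEq] at h6
      exact Prod.ext (C.inj _ _ (h4.trans h1.symm) h6.1) (C.inj _ _ (h5.trans h2.symm) h6.2)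
    by_cases ha : ∃ α : T × T, J.vt α.1 = i ∧ J.vt α.2 = j ∧ (π α.1, π α.2) = a
    · obtain ⟨α, a1, a2, a3⟩ := ha
      by_cases hb : ∃ β : T × T, J.vt β.1 = i ∧ J.vt β.2 = j ∧ (π β.1, π β.2) = b
      · obtain ⟨β, b1, b2, b3⟩ := hb
        refine AddSubmonoid.subset_closure ⟨hx', α, β, a1.trans b1.symm, a2.trans b2.symm, ?_,
          fun t' t e => ?_⟩
        · subst a3 b3
          exact ⟨fun e => C.inj _ _ (a2.trans b2.symm) (h3.1 (congrArg π e)),
            fun e => C.inj _ _ (a1.trans b1.symm) (h3.2 (congrArg π e))⟩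
        · obtain ⟨⟨c1, c2, -⟩, c3⟩ := lam_ne e
          exact (hS _ _ c3).imp (hu α a a1 a2 a3 t t' c1 c2) (hu β b b1 b2 b3 t t' c1 c2)
      · refine AddSubmonoid.subset_closure ⟨hx', α, α, rfl, rfl, by simp, fun t' t e => ?_⟩
        obtain ⟨⟨c1, c2, -⟩, c3⟩ := lam_ne e
        exact (hS _ _ c3).imp (hu α a a1 a2 a3 t t' c1 c2) fun e' => (hb ⟨(t, t'), c1, c2, e'⟩).elim
    · by_cases hb : ∃ β : T × T, J.vt β.1 = i ∧ J.vt β.2 = j ∧ (π β.1, π β.2) = b
      · obtain ⟨β, b1, b2, b3⟩ := hb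
        refine AddSubmonoid.subset_closure ⟨hx', β, β, rfl, rfl, by simp, fun t' t e => ?_⟩
        obtain ⟨⟨c1, c2, -⟩, c3⟩ := lam_ne e
        exact (hS _ _ c3).imp (fun e' => (ha ⟨(t, t'), c1, c2, e'⟩).elim)
          (hu β b b1 b2 b3 t t' c1 c2)
      · have : lam J π i j x = 0 := by
          ext t' t
          by_contra e
          obtain ⟨⟨c1, c2, -⟩, c3⟩ := lam_ne e
          exact (hS _ _ c3).elim (fun e' => ha ⟨(t, t'), c1, c2, e'⟩)
            fun e' => hb ⟨(t, t'), c1, c2, e'⟩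
        rw [this]
        exact zero_mem _
  · rw [lam_zero]
    exact zero_mem _
  · intro x y _ _ hx hy
    rw [lam_add]
    exact add_mem hx hy

theorem cov_thin (hC : SComb) (H : ThinBase P L) (C : Cover J P π)
    (hd : ∀ t t', J.vt t = J.vt t' → J.pk t = J.pk t' → t = t') : Thin J.vt J.R0 where
  zero := ⟨J.B.zero_mem, fun _ => rfl⟩
  add a ha b hb := ⟨J.B.add_mem ha.1 hb.1, fun p => by
    rw [Matrix.add_apply, ha.2, hb.2, add_zero]⟩
  smul c a ha := ⟨cov_smul H C c ha.1, fun p => by rw [Matrix.smul_apply, ha.2, smul_zero]⟩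
  mul a ha b hb := ⟨J.B.mul_mem ha.1 hb.1, fun p => by
    have K := hC F Pt ι P.vt P.R0 H.thin H.three
    rw [Matrix.mul_apply]
    refine Finset.sum_eq_zero fun t _ => ?_
    by_contra hc
    have h1 : a p t ≠ 0 := left_ne_zero_of_mul hc
    have h2 : b t p ≠ 0 := right_ne_zero_of_mul hc
    have h3 : t ≠ p := by
      rintro rfl
      exact h1 (ha.2 t)
    have h4 := (ar_iff H _ _).1 ((cov_ar C (J.peak b hb.1 _ _ h2)).1 ⟨h3, a, ha.1, h1⟩)
    have h5 := (ar_iff H _ _).1 ((cov_ar C (J.peak a ha.1 _ _ h1)).1 ⟨h3.symm, b, hb.1, h2⟩)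
    exact K.irr _ (K.trans _ _ _ h4 h5)⟩
  diag a ha := ha.2
  span r hr := cov_span H C hd hr
  mm h hh a b h1 h2 h3 hS ha := by
    have hs : ∀ q p, h q p ≠ 0 → (p, q) = a := by
      intro q p e
      rcases hS q p e with e' | rfl
      · exact e'
      · have k1 := J.peak h hh.1 _ _ ha
        have k2 := J.peak h hh.1 _ _ e
        rcases h3 with h3 | h3
        · exact Prod.ext h3.symm (hd _ _ h2.symm (k2.trans ((congrArg J.pk h3).symm.trans k1.symm)))
        · exact Prod.ext (hd _ _ h1.symm (k2.symm.trans ((congrArg J.pk h3).symm.trans k1))) h3.symm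
    have e1 : Matrix.single a.2 a.1 (1 : F) = (h a.2 a.1)⁻¹ • h := by
      conv_rhs => rw [eq_single hs]
      rw [Matrix.smul_apply, Matrix.single_apply_same, smul_eq_mul, mul_one, smul_smul,
        inv_mul_cancel₀ ha, one_smul]
    rw [e1]
    exact ⟨cov_smul H C _ hh.1, fun p => by rw [Matrix.smul_apply, hh.2, smul_zero]⟩

theorem cov_base (hC : SComb) (H : ThinBase P L) (C : Cover J P π)
    (hd : ∀ t t', J.vt t = J.vt t' → J.pk t = J.pk t' → t = t') : ThinBase J L where
  three i p q r s hp hq hr hs := by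
    have k : ∀ {x y : T}, J.vt x = i → J.vt y = i → π x = π y → x = y := fun hx hy e =>
      C.inj _ _ (hx.trans hy.symm) e
    exact (H.three (P.vt (π p)) (π p) (π q) (π r) (π s) rfl (C.vt_eq _ _ (hq.trans hp.symm))
      (C.vt_eq _ _ (hr.trans hp.symm)) (C.vt_eq _ _ (hs.trans hp.symm))).imp (k hp hq)
      (Or.imp (k hp hr) (Or.imp (k hp hs) (Or.imp (k hq hr) (Or.imp (k hq hs) (k hr hs)))))
  scal c b hb := cov_smul H C c hb
  diag b hb p q e := by
    obtain ⟨h, hh, H'⟩ := ((C.mem b).1 hb).2 (J.vt q) (J.vt q)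
    rw [H' p p e e, H' q q rfl rfl]
    exact H.diag h hh _ _ (C.vt_eq _ _ e)
  thin := cov_thin hC H C hd
  path e x hm := H.path (fun m => π (e m)) (fun m => π (x m)) fun m hmL => by
    obtain ⟨h1, h2, h3, h4, h5, h6⟩ := hm m hmL
    exact ⟨C.vt_eq _ _ h1, fun hc => h2 (C.inj _ _ h1 hc), C.pk_eq _ _ h3,
      fun hc => h4 (C.uniq _ _ hc h3), fun hc => h5 ((cov_ar C h3).2 hc),
      fun hc => h6 ((cov_ar C h3.symm).2 hc)⟩

theorem cov_tie (C : Cover J P π) (hd : ∀ t t', J.vt t = J.vt t' → J.pk t = J.pk t' → t = t')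
    {a b : T × T} (ht : Tie J.vt J.R0 a b) : Tie P.vt P.R0 (π a.1, π a.2) (π b.1, π b.2) := by
  obtain ⟨hab, h1, h2, hsg, h, hh, ha, hb, hS⟩ := ht
  have ka := J.peak h hh.1 _ _ ha
  have kb := J.peak h hh.1 _ _ hb
  have na : a.2 ≠ a.1 := fun hc => ha (by rw [hc]; exact hh.2 _)
  have nb : b.2 ≠ b.1 := fun hc => hb (by rw [hc]; exact hh.2 _)
  refine ⟨fun hc => hab ?_, C.vt_eq _ _ h1, C.vt_eq _ _ h2, fun hc => hsg ?_, ?_⟩
  · rw [Prod.mk.injEq] at hc
    exact Prod.ext (C.inj _ _ h1 hc.1) (C.inj _ _ h2 hc.2)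
  · have e1 : Matrix.single a.2 a.1 (1 : F) =
        lam J π (J.vt a.1) (J.vt a.2) (Matrix.single (π a.2) (π a.1) (1 : F)) := by
      ext t' t
      by_cases e : a.2 = t' ∧ a.1 = t
      · obtain ⟨rfl, rfl⟩ := e
        rw [lam_pos _ rfl rfl ka, Matrix.single_apply_same, Matrix.single_apply_same]
      · rw [Matrix.single_apply_of_ne _ _ _ _ _ e]
        by_contra hc'
        obtain ⟨⟨c1, c2, -⟩, c3⟩ := lam_ne (Ne.symm hc')
        refine c3 (Matrix.single_apply_of_ne _ _ _ _ _ fun e' => e ?_)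
        exact ⟨C.inj _ _ c2.symm e'.1, C.inj _ _ c1.symm e'.2⟩
    rw [e1]
    exact lam_mem0 C (fun hc' => na (hd _ _ hc'.symm ka)) hc.1
  · obtain ⟨h0, hh0, H'⟩ := ((C.mem h).1 hh.1).2 (J.vt a.1) (J.vt a.2)
    have hS' : Sup2 (P.blk (P.vt (π a.1)) (P.vt (π a.2)) h0) (π a.1, π a.2) (π b.1, π b.2) := by
      intro q p e
      obtain ⟨⟨c1, c2⟩, c3⟩ := mask_ne e
      obtain ⟨t, d1, rfl⟩ := C.full _ _ c1
      obtain ⟨t', d2, rfl⟩ := C.full _ _ c2
      rw [← H' t t' d1 d2] at c3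
      rcases hS _ _ c3 with rfl | rfl
      · exact Or.inl rfl
      · exact Or.inr rfl
    refine ⟨_, ⟨(P.blk_mem hh0 (P.vt (π a.1)) (P.vt (π a.2))).1, fun p => ?_⟩, ?_, ?_, hS'⟩
    · by_contra hc
      rcases hS' p p hc with e | e
      · rw [Prod.mk.injEq] at e
        exact na (C.uniq _ _ (e.2.symm.trans e.1) ka)
      · rw [Prod.mk.injEq] at e
        exact nb (C.uniq _ _ (e.2.symm.trans e.1) kb)
    · rwa [P.blk_pos _ rfl rfl, ← H' _ _ rfl rfl]
    · rwa [P.blk_pos _ (C.vt_eq _ _ h1.symm) (C.vt_eq _ _ h2.symm), ← H' _ _ h1.symm h2.symm]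

end prob

end GrA

theorem sgr : SComb → SGr := fun hC k F _ _ _ Pt ι Ω _ _ P L H =>
  ⟨fun G _ deg hd => GrA.graded H hd, GrA.ar_iff H, fun T I O _ _ J π C hd =>
    ⟨GrA.cov_base hC H C hd, fun t t' hp => GrA.cov_ar C hp, fun a b ht => GrA.cov_tie C hd ht⟩⟩

end Pool.Agent.MP_bd94e8_al.H89
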