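import Pool.Agent.MP_bd94e8_al.H89.Spec

/-!
Primitive idempotents, local rings of endomorphisms and decomposition of objects.
-/

set_option autoImplicit false
set_option linter.unusedVariables false

namespace Pool.Agent.MP_bd94e8_al.H89

open Module Function

namespace KsA

section ring
variable {A : Type} [Ring A]

theorem pow_mul_pow_eq_one {x y : A} (h : y * x = 1) (n : ℕ) : y ^ n * x ^ n = 1 := by
  induction n with
  | zero => simp
  | succ n ih => rw [pow_succ', pow_succ x, mul_assoc, ← mul_assoc (y ^ n), ih, one_mul, h]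

theorem sub_left {x y : A} (h : y * x = 1) (hx : IsNilpotent x) : Subsingleton A := by
  obtain ⟨n, hn⟩ := hx
  have := pow_mul_pow_eq_one h n
  rw [hn, mul_zero] at this
  exact subsingleton_of_zero_eq_one this

theorem sub_right {x y : A} (h : x * y = 1) (hx : IsNilpotent x) : Subsingleton A := by
  obtain ⟨n, hn⟩ := hx
  have := pow_mul_pow_eq_one h n
  rw [hn, zero_mul] at this
  exact subsingleton_of_zero_eq_one this

variable [IsArtinianRing A] [IsNoetherianRing A]

theorem loc0 (h : ∀ x : A, x * x = x → x = 0 ∨ x = 1) (x : A) :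
    IsNilpotent x ∨ ∃ y, y * x = 1 := by
  let f : Module.End A A := LinearMap.toSpanSingleton A A x
  have hf : ∀ (n : ℕ) (a : A), (f ^ n) a = a * x ^ n := by
    intro n
    induction n with
    | zero => intro a; simp
    | succ n ih =>
      intro a
      rw [pow_succ', Module.End.mul_apply, ih, pow_succ, ← mul_assoc]
      rfl
  obtain ⟨m, hm⟩ := Filter.eventually_atTop.1 f.eventually_isCompl_ker_pow_range_pow
  have hc := hm (m + 1) (Nat.le_succ m)
  have h1 : (1 : A) ∈ LinearMap.ker (f ^ (m + 1)) ⊔ LinearMap.range (f ^ (m + 1)) := by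
    rw [hc.sup_eq_top]; trivial
  obtain ⟨a, ha, b, hb, hab⟩ := Submodule.mem_sup.1 h1
  have hba : b * a = 0 := by
    have h2 : b * a ∈ LinearMap.ker (f ^ (m + 1)) := Submodule.smul_mem _ b ha
    have h3 : b * a ∈ LinearMap.range (f ^ (m + 1)) := by
      have : b * a = b - b * b := by
        rw [eq_sub_iff_add_eq, ← mul_add, hab, mul_one]
      rw [this]
      exact sub_mem hb (Submodule.smul_mem _ b hb)
    exact (Submodule.disjoint_def.1 hc.disjoint) _ h2 h3
  have hbb : b * b = b := by
    have : b * (a + b) = b := by rw [hab, mul_one]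
    rwa [mul_add, hba, zero_add] at this
  rcases h b hbb with h0 | h0
  · left
    rw [h0, add_zero] at hab
    rw [hab, LinearMap.mem_ker, hf, one_mul] at ha
    exact ⟨_, ha⟩
  · right
    obtain ⟨c, hc⟩ := hb
    rw [hf, h0, pow_succ, ← mul_assoc] at hc
    exact ⟨_, hc⟩

theorem loc1 (h : ∀ x : A, x * x = x → x = 0 ∨ x = 1) (x : A) :
    IsNilpotent x ∨ ∃ y, y * x = 1 ∧ x * y = 1 := by
  rcases loc0 h x with h1 | ⟨y, hy⟩
  · exact Or.inl h1
  · right
    refine ⟨y, hy, ?_⟩
    rcases loc0 h y with h2 | ⟨z, hz⟩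
    · haveI := sub_right hy h2
      exact Subsingleton.elim _ _
    · have : z = x := by rw [← mul_one z, ← hy, ← mul_assoc, hz, one_mul]
      rwa [this] at hz

theorem loc3 (h : ∀ x : A, x * x = x → x = 0 ∨ x = 1) (x y : A) (hx : IsNilpotent x) :
    IsNilpotent (x * y) ∧ IsNilpotent (y * x) := by
  constructor
  · rcases loc1 h (x * y) with h1 | ⟨z, -, hz⟩
    · exact h1
    · rw [mul_assoc] at hz
      haveI := sub_right hz hx
      exact ⟨0, Subsingleton.elim _ _⟩
  · rcases loc1 h (y * x) with h1 | ⟨z, hz, -⟩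
    · exact h1
    · rw [← mul_assoc] at hz
      haveI := sub_left hz hx
      exact ⟨0, Subsingleton.elim _ _⟩

theorem loc2 (h : ∀ x : A, x * x = x → x = 0 ∨ x = 1) (x y : A) (hx : IsNilpotent x)
    (hy : IsNilpotent y) : IsNilpotent (x + y) := by
  rcases loc1 h (x + y) with h1 | ⟨z, hz, -⟩
  · exact h1
  · have h2 : z * y = 1 - z * x := by rw [← hz, mul_add]; abel
    obtain ⟨u, hu⟩ := (loc3 h x z hx).2.isUnit_one_sub
    have h3 : (↑u⁻¹ * z) * y = 1 := by rw [mul_assoc, h2, ← hu, Units.inv_mul]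
    haveI := sub_left h3 hy
    exact ⟨0, Subsingleton.elim _ _⟩

theorem loc4 (h : ∀ x : A, x * x = x → x = 0 ∨ x = 1) :
    ∃ r : ℕ, ∀ l : List A, (∀ x ∈ l, IsNilpotent x) → r ≤ l.length → l.prod = 0 := by
  obtain ⟨r, hr⟩ := IsArtinianRing.isNilpotent_jacobson_bot (R := A)
  have hJ : ∀ x : A, IsNilpotent x → x ∈ Ideal.jacobson (⊥ : Ideal A) := by
    intro x hx
    rw [Ideal.mem_jacobson_iff]
    intro y
    obtain ⟨u, hu⟩ := (loc3 h x y hx).2.isUnit_add_one
    refine ⟨↑u⁻¹, ?_⟩
    have : (↑u⁻¹ : A) * y * x + ↑u⁻¹ = ↑u⁻¹ * u := by rw [hu, mul_add, mul_one, mul_assoc]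
    rw [this, Units.inv_mul, sub_self]
    exact zero_mem _
  have hP : ∀ l : List A, (∀ x ∈ l, IsNilpotent x) →
      l.prod ∈ Ideal.jacobson (⊥ : Ideal A) ^ l.length := by
    intro l
    induction l using List.reverseRecOn with
    | nil =>
      intro _
      rw [List.length_nil, Submodule.pow_zero, Ideal.one_eq_top]
      trivial
    | append_singleton l a ih =>
      intro hl
      rw [List.prod_append, List.prod_singleton, List.length_append, List.length_singleton,
        Submodule.pow_succ]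
      exact Ideal.mul_mem_mul (ih fun x hx => hl x (by simp [hx])) (hJ a (hl a (by simp)))
  refine ⟨r, fun l hl hrl => ?_⟩
  have := Ideal.pow_le_pow_right hrl (hP l hl)
  rw [hr] at this
  exact this

end ring

/-- Complete families of nonzero orthogonal idempotents in a subring. -/
def Fam {A : Type} [Ring A] (R : Subring A) (n : ℕ) (e : Fin n → A) : Prop :=
  (∀ s, e s ∈ R) ∧ (∀ s, e s ≠ 0) ∧ (∀ s, e s * e s = e s) ∧ (∀ s t, s ≠ t → e s * e t = 0) ∧
    ∑ s, e s = 1

theorem fam_le {F A : Type} [Field F] [Ring A] [Algebra F A] [FiniteDimensional F A]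
    {R : Subring A} {n : ℕ} {e : Fin n → A} (h : Fam R n e) : n ≤ finrank F A := by
  obtain ⟨-, h0, h1, h2, -⟩ := h
  have : LinearIndependent F e := by
    rw [Fintype.linearIndependent_iff]
    intro c hc t
    have h3 : e t * ∑ s, c s • e s = c t • e t := by
      rw [Finset.mul_sum, Finset.sum_eq_single t
        (fun s _ hs => by rw [mul_smul_comm, h2 t s hs.symm, smul_zero]) (by simp),
        mul_smul_comm, h1]
    rw [hc, mul_zero] at h3
    exact (smul_eq_zero.1 h3.symm).resolve_right (h0 t)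
  simpa using this.fintype_card_le_finrank

theorem fam_succ {A : Type} [Ring A] {R : Subring A} {n : ℕ} {e : Fin n → A} (h : Fam R n e)
    (s : Fin n) {x : A} (hx : x ∈ R) (hxx : x * x = x) (hl : e s * x = x) (hr : x * e s = x)
    (h0 : x ≠ 0) (h1 : x ≠ e s) : Fam R (n + 1) (Fin.cons x (update e s (e s - x))) := by
  obtain ⟨hR, hn, hi, ho, hs⟩ := h
  have hxl : ∀ t, t ≠ s → e t * x = 0 := fun t ht => by
    rw [← hl, ← mul_assoc, ho t s ht, zero_mul]
  have hxr : ∀ t, t ≠ s → x * e t = 0 := fun t ht => by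
    rw [← hr, mul_assoc, ho s t ht.symm, mul_zero]
  refine ⟨?_, ?_, ?_, ?_, ?_⟩
  · intro t
    refine Fin.cases hx (fun t => ?_) t
    rw [Fin.cons_succ]
    by_cases ht : t = s
    · rw [ht, update_self]; exact sub_mem (hR s) hx
    · rw [update_of_ne ht]; exact hR t
  · intro t
    refine Fin.cases h0 (fun t => ?_) t
    rw [Fin.cons_succ]
    by_cases ht : t = s
    · rw [ht, update_self]; exact sub_ne_zero.2 h1.symm
    · rw [update_of_ne ht]; exact hn t
  · intro t
    refine Fin.cases hxx (fun t => ?_) t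
    rw [Fin.cons_succ]
    by_cases ht : t = s
    · rw [ht, update_self, sub_mul, mul_sub, mul_sub, hi, hl, hr, hxx, sub_self, sub_zero]
    · rw [update_of_ne ht]; exact hi t
  · intro t t'
    refine Fin.cases (Fin.cases (fun h => (h rfl).elim) (fun t' _ => ?_) t')
      (fun t => Fin.cases (fun _ => ?_) (fun t' htt => ?_) t') t
    · rw [Fin.cons_succ, Fin.cons_zero]
      by_cases ht : t' = s
      · rw [ht, update_self, mul_sub, hr, hxx, sub_self]
      · rw [update_of_ne ht]; exact hxr t' ht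
    · rw [Fin.cons_succ, Fin.cons_zero]
      by_cases ht : t = s
      · rw [ht, update_self, sub_mul, hl, hxx, sub_self]
      · rw [update_of_ne ht]; exact hxl t ht
    · have htt' : t ≠ t' := fun h => htt (by rw [h])
      rw [Fin.cons_succ, Fin.cons_succ]
      by_cases ht : t = s
      · have ht' : t' ≠ s := fun h => htt' (ht.trans h.symm)
        rw [ht, update_self, update_of_ne ht', sub_mul, ho s t' ht'.symm, hxr t' ht', sub_self]
      · rw [update_of_ne ht]
        by_cases ht' : t' = s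
        · rw [ht', update_self, mul_sub, ho t s ht, hxl t ht, sub_self]
        · rw [update_of_ne ht']; exact ho t t' htt'
  · rw [Fin.sum_univ_succ, Fin.cons_zero]
    simp only [Fin.cons_succ]
    rw [Finset.sum_update_of_mem (Finset.mem_univ s), ← hs,
      ← Finset.add_sum_erase _ _ (Finset.mem_univ s), Finset.sdiff_singleton_eq_erase]
    abel

end KsA

open KsA

theorem ks1 : SKS1 := by
  intro F V _ _ _ _ R
  classical
  have hex : ∃ n, ∃ e, Fam R n e := by
    by_cases h : (1 : End F V) = 0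
    · exact ⟨0, Fin.elim0, fun s => s.elim0, fun s => s.elim0, fun s => s.elim0,
        fun s => s.elim0, by simp [h]⟩
    · exact ⟨1, fun _ => 1, fun _ => one_mem _, fun _ => h, fun _ => mul_one _,
        fun s t hst => (hst (Subsingleton.elim _ _)).elim, by simp⟩
  obtain ⟨n0, hn0⟩ := hex
  let Q : ℕ → Prop := fun n => ∃ e, Fam R n e
  have hb : ∀ n, Q n → n ≤ finrank F (End F V) := fun n ⟨e, he⟩ => fam_le he
  obtain ⟨e, he⟩ : Q (Nat.findGreatest Q (finrank F (End F V))) :=
    Nat.findGreatest_spec (hb n0 hn0) hn0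
  refine ⟨_, e, he.1, he.2.1, he.2.2.1, he.2.2.2.1, he.2.2.2.2, fun s x hx hxx hl hr => ?_⟩
  by_contra hc
  push Not at hc
  have h1 : Q _ := ⟨_, fam_succ he s hx hxx hl hr hc.1 hc.2⟩
  have := Nat.le_findGreatest (hb _ h1) h1
  omega

theorem ks2 : SKS2 := by
  intro k F V _ _ _ _ _ _ _ R hk hR
  letI : Module k V := Module.compHom V (algebraMap k F)
  haveI : IsScalarTower k F V := ⟨fun a b v => by
    rw [Algebra.smul_def, mul_smul]; rfl⟩
  let A : Subalgebra k (End F V) :=
    { R with algebraMap_mem' := fun c => hk c }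
  haveI : FiniteDimensional k (End F V) := Module.Finite.trans F (End F V)
  haveI : IsArtinianRing A := IsArtinianRing.of_finite k A
  haveI : IsNoetherianRing A := inferInstance
  have hA : ∀ x : A, x * x = x → x = 0 ∨ x = 1 := fun x hx =>
    (hR x.1 x.2 (congrArg Subtype.val hx)).imp Subtype.ext Subtype.ext
  have hN : ∀ x : A, IsNilpotent x ↔ IsNilpotent (x : End F V) := fun x =>
    ⟨fun ⟨n, hn⟩ => ⟨n, congrArg Subtype.val hn⟩, fun ⟨n, hn⟩ => ⟨n, Subtype.ext hn⟩⟩
  refine ⟨fun x hx => ?_, fun x hx y hy h1 h2 => ?_, fun x hx y hy h1 => ?_, ?_⟩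
  · rcases loc1 hA ⟨x, hx⟩ with h | ⟨y, h1, h2⟩
    · exact Or.inl ((hN _).1 h)
    · exact Or.inr ⟨y.1, y.2, congrArg Subtype.val h1, congrArg Subtype.val h2⟩
  · exact (hN _).1 (loc2 hA ⟨x, hx⟩ ⟨y, hy⟩ ((hN _).2 h1) ((hN _).2 h2))
  · exact (loc3 hA ⟨x, hx⟩ ⟨y, hy⟩ ((hN _).2 h1)).imp (hN _).1 (hN _).1
  · obtain ⟨r, hr⟩ := loc4 hA
    refine ⟨r, fun l hl hrl => ?_⟩
    have hex : ∃ l' : List A, l'.map A.val = l := by
      refine ⟨l.pmap (fun x hx => (⟨x, hx⟩ : A)) fun x hx => (hl x hx).1, ?_⟩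
      rw [List.map_pmap]
      simp
    obtain ⟨l', rfl⟩ := hex
    rw [← map_list_prod, hr l' (fun x hx => (hN x).2 (hl _ (List.mem_map_of_mem hx)).2)
      (by simpa using hrl), map_zero]

theorem dec : SKS1 → SDec := by
  intro h k F _ _ _ Pt ι Ω _ _ _ P V _ _ _ M
  let R : Subring (End F V) :=
    { carrier := {g | M.IsHom M g}
      mul_mem' := fun {a b} ha hb => ⟨fun o => by
        change (a ∘ₗ b) ∘ₗ M.ε o = M.ε o ∘ₗ a ∘ₗ b
        rw [LinearMap.comp_assoc, hb.1 o, ← LinearMap.comp_assoc, ha.1 o, LinearMap.comp_assoc],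
        fun u hu => ha.2 _ (hb.2 u hu)⟩
      one_mem' := ⟨fun o => rfl, fun u hu => hu⟩
      add_mem' := fun {a b} ha hb => ⟨fun o => by
        rw [LinearMap.add_comp, LinearMap.comp_add, ha.1 o, hb.1 o],
        fun u hu => M.U.add_mem (ha.2 u hu) (hb.2 u hu)⟩
      zero_mem' := ⟨fun o => by simp, fun u hu => M.U.zero_mem⟩
      neg_mem' := fun {a} ha => ⟨fun o => by
        rw [LinearMap.neg_comp, LinearMap.comp_neg, ha.1 o],
        fun u hu => M.U.neg_mem (ha.2 u hu)⟩ }
  obtain ⟨n, e, hR, h0, h1, h2, h3, h4⟩ := h F V R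
  refine ⟨n, e, hR, h1, h2, h3, fun s => ⟨?_, fun x hx hxx => ?_⟩⟩
  · rw [Submodule.nontrivial_iff_ne_bot]
    exact fun hb => h0 s (LinearMap.range_eq_bot.1 hb)
  · have hfix : ∀ w : LinearMap.range (e s), e s w = w := by
      rintro ⟨_, v, rfl⟩
      exact LinearMap.congr_fun (h1 s) v
    have hrr : ∀ w : LinearMap.range (e s), (e s).rangeRestrict w = w := fun w =>
      Subtype.ext (hfix w)
    let y : End F V := (LinearMap.range (e s)).subtype ∘ₗ x ∘ₗ (e s).rangeRestrict
    have hy : ∀ v, y v = x ((e s).rangeRestrict v) := fun v => rfl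
    have hyR : y ∈ R := by
      refine ⟨fun o => LinearMap.ext fun v => ?_, fun u hu => ?_⟩
      · have h5 : (e s).rangeRestrict (M.ε o v) =
            (M.smd (e s) (hR s)).ε o ((e s).rangeRestrict v) :=
          Subtype.ext (LinearMap.congr_fun ((hR s).1 o) v)
        change y (M.ε o v) = M.ε o (y v)
        rw [hy, h5]
        exact congrArg Subtype.val (LinearMap.congr_fun (hx.1 o) ((e s).rangeRestrict v))
      · exact hx.2 (fun p => (e s).rangeRestrict (u p)) ((hR s).2 u hu)
    have hyy : y * y = y := LinearMap.ext fun v => by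
      change y (y v) = y v
      rw [hy, hy, hrr]
      exact congrArg Subtype.val (LinearMap.congr_fun hxx _)
    have hl : e s * y = y := LinearMap.ext fun v => hfix _
    have hr : y * e s = y := LinearMap.ext fun v => by
      change y (e s v) = y v
      rw [hy, hy]
      exact congrArg (fun w => (x w : V)) (hrr ((e s).rangeRestrict v))
    rcases h4 s y hyR hyy hl hr with h5 | h5
    · left
      refine LinearMap.ext fun w => Subtype.ext ?_
      have := LinearMap.congr_fun h5 w
      rwa [hy, hrr] at this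
    · right
      refine LinearMap.ext fun w => Subtype.ext ?_
      have := LinearMap.congr_fun h5 w
      rwa [hy, hrr, hfix] at this

end Pool.Agent.MP_bd94e8_al.H89
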