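import Pool.Agent.MP_bd94e8_al.H97B.Gr

/-!
Normalisation of the coefficients of tied arrows.
-/

set_option autoImplicit false
set_option linter.unusedVariables false
set_option linter.unusedSectionVars false

namespace Pool.Agent.MP_bd94e8_al.H89

open Module Function

namespace GrA

section kappa
variable {F Pt ι : Type} [Field F] [Fintype Pt] [DecidableEq Pt] {vt : Pt → ι}
  {R : Set (Matrix Pt Pt F)}

theorem tie_ratio (H : Thin vt R) {a b : Pt × Pt} (ht : Tie vt R a b) :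
    ∃ c : Fˣ, ∀ h ∈ R, Sup2 h a b → h b.2 b.1 = c * h a.2 a.1 := by
  obtain ⟨hab, -, -, hsg, g, hg, ga, gb, gS⟩ := ht
  refine ⟨Units.mk0 (g b.2 b.1 / g a.2 a.1) (div_ne_zero gb ga), fun h hh hS => ?_⟩
  rw [Units.val_mk0]
  by_contra hc
  have h1 : g b.2 b.1 • h - h b.2 b.1 • g ∈ R := sub_mem H (H.smul _ _ hh) (H.smul _ _ hg)
  refine hsg (single_mem H h1 (fun q p e => ?_) fun e => hc ?_)
  · by_cases e' : (p, q) = b
    · subst e'
      simp [mul_comm] at e
    · by_contra e''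
      refine e ?_
      have k1 : h q p = 0 := by
        by_contra k
        exact (hS q p k).elim e'' e'
      have k2 : g q p = 0 := by
        by_contra k
        exact (gS q p k).elim e'' e'
      simp [k1, k2]
  · rw [Matrix.sub_apply, Matrix.smul_apply, Matrix.smul_apply, smul_eq_mul, smul_eq_mul] at e
    field_simp
    linear_combination -e

theorem exists_kappa (H : Thin vt R) : ∃ κ : Pt × Pt → Pt × Pt → Fˣ, ∀ a b, Tie vt R a b →
    ∀ h ∈ R, Sup2 h a b → h b.2 b.1 = κ a b * h a.2 a.1 := by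
  classical
  refine ⟨fun a b => if h : Tie vt R a b then (tie_ratio H h).choose else 1, fun a b ht => ?_⟩
  simp only [dif_pos ht]
  exact (tie_ratio H ht).choose_spec

variable {κ : Pt × Pt → Pt × Pt → Fˣ}

theorem kappa_symm (hκ : ∀ a b, Tie vt R a b → ∀ h ∈ R, Sup2 h a b → h b.2 b.1 = κ a b * h a.2 a.1)
    {a b : Pt × Pt} (h1 : Tie vt R a b) (h2 : Tie vt R b a) : κ b a = (κ a b)⁻¹ := by
  obtain ⟨h, hh, ha, hb, hS⟩ := h1.2.2.2.2
  have e1 := hκ a b h1 h hh hS
  have e2 := hκ b a h2 h hh (Sup2.symm hS)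
  rw [e1, ← mul_assoc] at e2
  refine eq_inv_of_mul_eq_one_left (Units.ext ?_)
  exact mul_right_cancel₀ ha (by rw [Units.val_one, one_mul, Units.val_mul]; exact e2.symm)

theorem kappa_mul (H : Thin vt R)
    (hκ : ∀ a b, Tie vt R a b → ∀ h ∈ R, Sup2 h a b → h b.2 b.1 = κ a b * h a.2 a.1)
    {p q r p' q' r' : Pt} (hp : p ≠ p') (hq : q ≠ q') (h1 : Tie vt R (p, q) (p', q'))
    (h2 : Tie vt R (q, r) (q', r')) (h3 : Tie vt R (p, r) (p', r')) :
    κ (p, r) (p', r') = κ (q, r) (q', r') * κ (p, q) (p', q') := by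
  obtain ⟨g, hg, ga, gb, gS⟩ := h1.2.2.2.2
  obtain ⟨h, hh, ha, hb, hS⟩ := h2.2.2.2.2
  have e1 := hκ _ _ h1 g hg gS
  have e2 := hκ _ _ h2 h hh hS
  have hS' : Sup2 (h * g) (p, r) (p', r') := by
    intro y x e
    rw [Matrix.mul_apply] at e
    obtain ⟨z, -, hz⟩ := Finset.exists_ne_zero_of_sum_ne_zero e
    rcases gS _ _ (right_ne_zero_of_mul hz) with k | k <;>
      rcases hS _ _ (left_ne_zero_of_mul hz) with k' | k' <;>
      rw [Prod.mk.injEq] at k k'
    · exact Or.inl (Prod.ext k.1 k'.2)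
    · exact (hq (k.2.symm.trans k'.1)).elim
    · exact (hq (k'.1.symm.trans k.2)).elim
    · exact Or.inr (Prod.ext k.1 k'.2)
  have e3 := hκ _ _ h3 _ (H.mul h hh g hg) hS'
  have m1 : (h * g) r p = h r q * g q p := by
    rw [Matrix.mul_apply]
    refine Finset.sum_eq_single q (fun z _ hz => ?_) (by simp)
    by_contra hc
    rcases gS _ _ (right_ne_zero_of_mul hc) with k | k <;> rw [Prod.mk.injEq] at k
    · exact hz k.2
    · exact hp k.1
  have m2 : (h * g) r' p' = h r' q' * g q' p' := by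
    rw [Matrix.mul_apply]
    refine Finset.sum_eq_single q' (fun z _ hz => ?_) (by simp)
    by_contra hc
    rcases gS _ _ (right_ne_zero_of_mul hc) with k | k <;> rw [Prod.mk.injEq] at k
    · exact hp k.1.symm
    · exact hz k.2
  dsimp only at e1 e2 e3 ga ha
  rw [m1, m2, e1, e2] at e3
  refine Units.ext (mul_right_cancel₀ (mul_ne_zero ha ga) ?_)
  rw [← e3, Units.val_mul]
  ring

theorem kappa_tri (H : Thin vt R)
    (hκ : ∀ a b, Tie vt R a b → ∀ h ∈ R, Sup2 h a b → h b.2 b.1 = κ a b * h a.2 a.1)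
    {x y z : Pt × Pt} (h1 : Tie vt R x y) (h2 : Tie vt R y z) (h3 : Tie vt R x z) :
    κ x z = -(κ x y * κ y z) := by
  obtain ⟨g, hg, ga, gb, gS⟩ := h1.2.2.2.2
  obtain ⟨h, hh, ha, hb, hS⟩ := h2.2.2.2.2
  have e1 := hκ _ _ h1 g hg gS
  have e2 := hκ _ _ h2 h hh hS
  have k1 : h x.2 x.1 = 0 := by
    by_contra k
    exact (hS _ _ k).elim h1.1 h3.1
  have k2 : g z.2 z.1 = 0 := by
    by_contra k
    exact (gS _ _ k).elim (fun e => h3.1 e.symm) fun e => h2.1 e.symm
  have hS' : Sup2 (h y.2 y.1 • g - g y.2 y.1 • h) x z := by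
    intro q p e
    by_cases e' : (p, q) = y
    · subst e'
      simp [mul_comm] at e
    · by_cases k : g q p = 0
      · right
        refine (hS q p fun k' => e ?_).resolve_left e'
        simp [k, k']
      · exact Or.inl ((gS q p k).resolve_right e')
  have e3 := hκ _ _ h3 _ (sub_mem H (H.smul _ _ hg) (H.smul _ _ hh)) hS'
  simp only [Matrix.sub_apply, Matrix.smul_apply, smul_eq_mul, k1, k2, mul_zero, sub_zero,
    zero_sub] at e3
  refine Units.ext (mul_right_cancel₀ (mul_ne_zero ha ga) ?_)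
  rw [← e3, Units.val_neg, Units.val_mul, e1, e2]
  ring

end kappa

theorem step {Pt ι Ω G : Type} [CommGroup G] (hCoc : SCoc) {vt : Pt → ι} {pk : Pt → Ω}
    {arr : Pt → Pt → Prop} {tie : Pt × Pt → Pt × Pt → Prop} {L : ℕ} (K : Comb vt arr tie)
    (hpk : ∀ p q, arr p q → pk p = pk q) (hd : ∀ p q, vt p = vt q → pk p = pk q → p = q)
    (hN : NoPath vt (fun p q => pk p = pk q ∧ AInc arr p q) L) {rk : ι → ℕ}
    (hrk : ∀ p q, arr p q → rk (vt q) < rk (vt p)) (κ : Pt × Pt → Pt × Pt → G)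
    (k1 : ∀ a b, tie a b → κ b a = (κ a b)⁻¹)
    (k2 : ∀ p q r p' q' r', tie (p, q) (p', q') → tie (q, r) (q', r') → tie (p, r) (p', r') →
      κ (p, r) (p', r') = κ (q, r) (q', r') * κ (p, q) (p', q'))
    (k3 : ∀ x y z, tie x y → tie y z → tie x z → κ x z = κ x y * κ y z) (n : ℕ) :
    ∃ ρ : Pt → G, ∀ a b, tie a b → rk (vt a.1) < n →
      (ρ a.2)⁻¹ * ρ a.1 = (ρ b.2)⁻¹ * κ a b * ρ b.1 := by
  classical
  induction n with
  | zero => exact ⟨1, fun a b _ h => absurd h (Nat.not_lt_zero _)⟩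
  | succ n ih =>
    obtain ⟨ρ, hρ⟩ := ih
    have hg : ∀ v : ι, rk v = n → ∃ g : Pt → G, ∀ x y, tie x y → vt x.1 = v →
        (κ x y)⁻¹ * ρ y.2 * (ρ x.2)⁻¹ = (g x.1)⁻¹ * g y.1 := by
      intro v hv
      refine hCoc Pt ι Ω vt pk arr tie L K hpk hd hN v G
        (fun x y => (κ x y)⁻¹ * ρ y.2 * (ρ x.2)⁻¹) ?_ ?_ ?_
      · intro x y h _
        rw [k1 x y h]
        simp only [mul_inv_rev, inv_inv, mul_comm, mul_left_comm, mul_assoc]
      · intro p q r p' q' r' hp h1 h2 h3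
        have h4 := hrk _ _ (K.tie_arr _ _ h1)
        have h5 := hρ _ _ h2 (by dsimp only at h4 ⊢; rw [← hv, ← hp]; exact h4)
        dsimp only at h5 ⊢
        rw [k2 p q r p' q' r' h1 h2 h3, inv_mul_eq_iff_eq_mul.1 h5]
        simp only [mul_inv_rev, inv_inv, mul_comm, mul_left_comm, mul_assoc, mul_inv_cancel_left,
          mul_inv_cancel_comm_assoc, mul_inv_cancel, one_mul, mul_one]
      · intro x y z _ h1 h2 h3
        rw [k3 x y z h1 h2 h3]
        apply Additive.ofMul.injective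
        simp only [ofMul_mul, ofMul_inv]
        abel
    choose! g hg using hg
    refine ⟨fun p => if rk (vt p) = n then g (vt p) p else ρ p, fun a b h hn => ?_⟩
    obtain ⟨v1, v2, -, -⟩ := K.tie_vt a b h
    have h4 := hrk _ _ (K.tie_arr _ _ h)
    have h5 : rk (vt a.2) ≠ n := by omega
    simp only [← v1, ← v2, if_neg h5]
    by_cases e : rk (vt a.1) = n
    · simp only [if_pos e]
      have h6 := hg _ e a b h rfl
      rw [eq_inv_mul_iff_mul_eq] at h6
      rw [← h6]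
      apply Additive.ofMul.injective
      simp only [ofMul_mul, ofMul_inv]
      abel
    · simp only [if_neg e]
      exact hρ a b h (by omega)

end GrA

open GrA in
theorem norm : SComb → SCoc → SNorm := by
  intro hC hCoc k F _ _ _ Pt ι Ω _ _ J L H
  have K := hC F Pt ι J.vt J.R0 H.thin H.three
  obtain ⟨κ, hκ⟩ := exists_kappa H.thin
  obtain ⟨rk, hrk⟩ := H.rk
  let S : Subgroup Fˣ := (powMonoidHom 2 : Fˣ →* Fˣ).ker
  have hpk : ∀ p q, Arr J.R0 p q → J.pk p = J.pk q := fun p q ⟨r, hr, e⟩ =>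
    (J.peak r hr.1 _ _ e).symm
  obtain ⟨ρ, hρ⟩ := step (G := Fˣ ⧸ S) hCoc K hpk H.dist
    (fun e x hm => H.path e x fun m hmL => by
      obtain ⟨h1, h2, h3, h4, h5, h6⟩ := hm m hmL
      exact ⟨h1, h2, h3, h4, fun hc => h5 ((ar_iff H.toThinBase _ _).1 hc),
        fun hc => h6 ((ar_iff H.toThinBase _ _).1 hc)⟩)
    (rk := rk) (fun p q h => by
      obtain ⟨r, hr, e⟩ := id h
      refine hrk r hr.1 q p e fun hc => ?_
      have := H.dist _ _ hc (hpk p q h).symm
      subst this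
      exact K.irr _ h)
    (fun a b => QuotientGroup.mk' S (κ a b))
    (fun a b h => by rw [kappa_symm hκ h (K.symm _ _ h), map_inv])
    (fun p q r p' q' r' h1 h2 h3 => by
      rw [kappa_mul H.thin hκ (K.tie_vt _ _ h1).2.2.1 (K.tie_vt _ _ h1).2.2.2 h1 h2 h3, map_mul])
    (fun x y z h1 h2 h3 => by
      have : QuotientGroup.mk' S (-1) = 1 := by
        rw [QuotientGroup.mk'_apply, QuotientGroup.eq_one_iff]
        simp [S]
      rw [kappa_tri H.thin hκ h1 h2 h3, ← neg_one_mul, map_mul, this, one_mul, map_mul])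
    (Finset.univ.sup (fun p => rk (J.vt p)) + 1)
  choose σ hσ using fun p => QuotientGroup.mk'_surjective S (ρ p)
  refine ⟨fun p => σ p, fun p => (σ p).ne_zero, fun a b ht h hh hS => ?_⟩
  have h1 := hρ a b ht
    (Nat.lt_succ_of_le (Finset.le_sup (f := fun p => rk (J.vt p)) (Finset.mem_univ a.1)))
  rw [← hσ, ← hσ, ← hσ, ← hσ, ← map_inv, ← map_inv, ← map_mul, ← map_mul, ← map_mul,
    QuotientGroup.mk'_apply, QuotientGroup.mk'_apply, QuotientGroup.eq, MonoidHom.mem_ker,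
    powMonoidHom_apply, mul_pow, inv_pow, inv_mul_eq_one] at h1
  have h2 := congrArg Units.val h1
  simp only [Units.val_pow_eq_pow_val, Units.val_mul, Units.val_inv_eq_inv_val] at h2
  rw [hκ a b ht h hh hS]
  rcases sq_eq_sq_iff_eq_or_eq_neg.1 h2 with e | e
  · left
    linear_combination h a.2 a.1 * e
  · right
    linear_combination h a.2 a.1 * e

end Pool.Agent.MP_bd94e8_al.H89
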